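import Mathlib
import Pool.Agent.H362Z.WNCDefs
import Pool.Agent.H362Z.WNCInterval

set_option autoImplicit false

namespace Pool.Agent.Results.MP_ca490d_an.NotEquivalent

open Pool.Agent.H362Z.WNC

/-- On the space of continuous complex functions on `[0,1]` the De Blasi measure is not bounded by
any constant multiple of `wk` or of `wck`. -/
theorem result (c : NNReal) :
    ∃ A : Set C(Set.Icc (0 : ℝ) 1, ℂ), Bornology.IsBounded A ∧ A.Nonempty ∧
      c * wk C(Set.Icc (0 : ℝ) 1, ℂ) A < omega C(Set.Icc (0 : ℝ) 1, ℂ) A ∧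
      c * wck C(Set.Icc (0 : ℝ) 1, ℂ) A < omega C(Set.Icc (0 : ℝ) 1, ℂ) A := by
  obtain ⟨j, h1, h2⟩ := exists_injection_Icc
  exact not_equiv (data_of_injection j h1 h2) c

end Pool.Agent.Results.MP_ca490d_an.NotEquivalent
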